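import Pool.Agent.H53.CL.Desc
import Pool.Agent.H53.CL.First

/-! Families of rational curves of arbitrary degree on smooth cubic hypersurfaces of any dimension whose
projections from a line of the hypersurface are lines.

Every cubic hypersurface `X ⊂ P^(n+1)` which contains the line `ℓ = {y_1 = ... = y_n = 0}` has the equation
`A_00 x_0² + 2 A_01 x_0 x_1 + A_11 x_1² + 2 A_02 x_0 + 2 A_12 x_1 + A_22 = 0`
with forms `A_ij` in `y_1, ..., y_n`, of degree `1` for `i, j ≤ 1`, of degree `2` for `i ≤ 1`, `j = 2`, and of
degree `3` for `i = j = 2`.  The matrix `A(y)` is the matrix of the conic which the plane spanned by `ℓ` and `y`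
cuts out on `X` besides `ℓ`.

For cubic fourfolds the theorem is `CurvesOverLines` (helper79), with lines which are contained in no plane in
`X`; for lines of the first type the existence of a conic which is a double line follows from this condition.
The idea of the descent (third intersection points with the line) is from there; here it is carried out for
ternary quadratic forms over `L[t]`, the anisotropy of the conic comes from a conic of rank one, and the lines
with which the descent ends are excluded by the theorem `WittIndexOne` of the starting files on all smooth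
cubics. -/

set_option autoImplicit false

namespace Pool.Agent.Results.MP_2619d0_ag.CurvesOverLinesAnyDimension

open MvPolynomial

/-- the cubic form `∑ v_i A_ij(y) v_j`, `v = (x_0, x_1, 1)`, in the variables
`x_0, x_1, y_1, ..., y_n` -/
noncomputable def equation {n : ℕ} (A : Matrix (Fin 3) (Fin 3) (MvPolynomial (Fin n) ℂ)) :
    MvPolynomial (Fin (n + 2)) ℂ :=
  ∑ i, ∑ j, (![X 0, X 1, 1] : Fin 3 → MvPolynomial (Fin (n + 2)) ℂ) i *
    rename (fun l : Fin n => l.succ.succ) (A i j) *
      (![X 0, X 1, 1] : Fin 3 → MvPolynomial (Fin (n + 2)) ℂ) j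

/-- `A` is symmetric, the entries are forms of the degrees `1 + e_i + e_j`, `e = (0, 0, 1)`, and the
partial derivatives of the cubic form have no common zero besides the origin: the cubic hypersurface
is smooth, and it contains the line `y = 0` -/
structure SmoothCubic {n : ℕ} (A : Matrix (Fin 3) (Fin 3) (MvPolynomial (Fin n) ℂ)) : Prop where
  symm : A.IsSymm
  hom : ∀ i j, (A i j).IsHomogeneous (1 + (![0, 0, 1] : Fin 3 → ℕ) i + (![0, 0, 1] : Fin 3 → ℕ) j)
  smooth : ∀ z : Fin (n + 2) → ℂ, (∀ i, eval z (pderiv i (equation A)) = 0) → z = 0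

/-- the line `y = 0` is of the first type: the linear forms `A_00`, `A_01`, `A_11` are linearly
independent, that is, they take all triples of values -/
def FirstType {n : ℕ} (A : Matrix (Fin 3) (Fin 3) (MvPolynomial (Fin n) ℂ)) : Prop :=
  ∀ s : Fin 3 → ℂ, ∃ y : Fin n → ℂ,
    eval y (A 0 0) = s 0 ∧ eval y (A 0 1) = s 1 ∧ eval y (A 1 1) = s 2

/-- some plane through the line `y = 0` meets the cubic in this line and in a double line: the
matrix `A(η)` has rank one for some `η` -/
def DoubleLine {n : ℕ} (A : Matrix (Fin 3) (Fin 3) (MvPolynomial (Fin n) ℂ)) : Prop :=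
  ∃ η : Fin n → ℂ, (∃ i j, eval η (A i j) ≠ 0) ∧
    ∀ i j k l : Fin 3, eval η (A i k) * eval η (A j l) = eval η (A i l) * eval η (A j k)

/-- `x` is a point of the hypersurface `F = 0` of dimension `n` with coordinates in the field `M` of
transcendence degree `n` over `ℂ`, and the degree of `M` over the field generated over `ℂ` by the
ratios of the coordinates of `x` is finite and odd; that is, `x` is a generic point of the
hypersurface and the degree of `M` over the function field of the hypersurface is odd -/
def OddPoint {n : ℕ} (F : MvPolynomial (Fin (n + 2)) ℂ) {M : Type} [Field M] [Algebra ℂ M]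
    (x : Fin (n + 2) → M) : Prop :=
  Algebra.trdeg ℂ M = n ∧ aeval x F = 0 ∧
    Odd (Module.finrank (IntermediateField.adjoin ℂ {z : M | ∃ i j, z = x i / x j}) M)

/-- an element of `L(t)` is a quotient of the values of two polynomials, the second one nonzero -/
theorem exists_quot {M : Type} [Field M] [Algebra ℂ M] (L : IntermediateField ℂ M) (t : M)
    (a : M) (ha : a ∈ IntermediateField.adjoin L {t}) :
    ∃ A D : Polynomial L, D ≠ 0 ∧ a = Polynomial.aeval t A / Polynomial.aeval t D := by
  obtain ⟨r, s, h⟩ := (IntermediateField.mem_adjoin_simple_iff L a).1 ha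
  by_cases hs : s = 0
  · refine ⟨0, 1, one_ne_zero, ?_⟩
    simp [h, hs]
  · exact ⟨r, s, hs, h⟩

/-- Let `X` be a smooth cubic hypersurface of dimension `n` and let `ℓ` be a line in `X`. Suppose that `n ≥ 5`
and `ℓ` is of the first type, or that some plane through `ℓ` meets `X` in `ℓ` and in a double line. Then every
family of parametrized rational curves, of any degree, on `X` whose projections from `ℓ` are lines (or points)
has even degree. More precisely, in coordinates such that `ℓ` is the line `y = 0`, let `L` be a subfield of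
`M`, let `t` be transcendental over `L`, and let `x = (a, b, c (t y + z))` with `a`, `b`, `c` in `L(t)` and
`y`, `z` over `L`; then `x` is not a generic point of `X` over whose function field `M` has odd degree. -/
theorem result (n : ℕ) (A : Matrix (Fin 3) (Fin 3) (MvPolynomial (Fin n) ℂ)) (hA : SmoothCubic A)
    (hl : (5 ≤ n ∧ FirstType A) ∨ DoubleLine A) (M : Type) [Field M] [Algebra ℂ M]
    (L : IntermediateField ℂ M) (t : M) (ht : Transcendental L t) (y z : Fin n → L) (a b c : M)
    (ha : a ∈ IntermediateField.adjoin L {t}) (hb : b ∈ IntermediateField.adjoin L {t})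
    (hc : c ∈ IntermediateField.adjoin L {t}) :
    ¬ OddPoint (equation A) (Fin.cons a (Fin.cons b fun l => c * (t * (y l : M) + (z l : M)))) := by
  obtain ⟨hs, hom, hsm⟩ := hA
  have hom' : ∀ i j, (A i j).IsHomogeneous
      (1 + Pool.Agent.H53.CL.dg i + Pool.Agent.H53.CL.dg j) := hom
  have heq : equation A = Pool.Agent.H53.CL.cub A := rfl
  rw [heq] at hsm ⊢
  obtain ⟨η, hη, hη2⟩ : DoubleLine A := by
    rcases hl with ⟨hn, h1⟩ | h
    · exact Pool.Agent.H53.CL.exists_rank_one hs hom' hn hsm h1
    · exact h
  have hn : 1 ≤ n := by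
    by_contra hn
    obtain rfl : n = 0 := by omega
    obtain ⟨i, j, hij⟩ := hη
    apply hij
    have e : η = 0 := by
      funext l
      exact l.elim0
    rw [e, eval_zero, constantCoeff_eq]
    refine (hom i j).coeff_eq_zero ?_
    rw [map_zero]
    omega
  have hAn := Pool.Agent.H53.CL.aniso_poly hs hom' hsm η hη hη2
  have hF3 := Pool.Agent.H53.CL.cub_hom hom'
  rintro ⟨htr, hx, hodd⟩
  have hx0 : (Fin.cons a (Fin.cons b fun l => c * (t * (y l : M) + (z l : M))) :
      Fin (n + 2) → M) = Pool.Agent.H53.CL.pt ![a, b, c] (fun l => t * (y l : M) + (z l : M)) := rfl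
  rw [hx0] at hx hodd
  have hfin : FiniteDimensional (Pool.Agent.TH314.PD.ratioField
      (Pool.Agent.H53.CL.pt ![a, b, c] (fun l => t * (y l : M) + (z l : M)))) M :=
    Module.finite_of_finrank_pos hodd.pos
  have hforms := Pool.Agent.H53.CL.generic_of_finite hn _ hF3 hsm htr _ hx hfin
  have hF0 : Pool.Agent.H53.CL.cub A ≠ 0 :=
    Pool.Agent.TH314.PD.ne_zero_of_smooth (m := n + 1) hsm
  have hinj : ∀ P : Polynomial L, Polynomial.aeval t P = 0 → P = 0 :=
    fun P hP => by
      by_contra hne
      exact ht ⟨P, hne, hP⟩
  obtain ⟨A₁, A', hA', haA⟩ := exists_quot L t a ha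
  obtain ⟨B, B', hB', hbB⟩ := exists_quot L t b hb
  obtain ⟨C, C', hC', hcC⟩ := exists_quot L t c hc
  have hAt : Polynomial.aeval t A' ≠ 0 := fun h => hA' (hinj _ h)
  have hBt : Polynomial.aeval t B' ≠ 0 := fun h => hB' (hinj _ h)
  have hCt : Polynomial.aeval t C' ≠ 0 := fun h => hC' (hinj _ h)
  by_cases hC : C = 0
  · -- the point lies on the line
    have hc0 : c = 0 := by rw [hcC, hC, map_zero, zero_div]
    have h1 : aeval (Pool.Agent.H53.CL.pt ![a, b, c] (fun l => t * (y l : M) + (z l : M)))
        (X ((⟨0, hn⟩ : Fin n).succ.succ) : MvPolynomial (Fin (n + 2)) ℂ) = 0 := by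
      rw [aeval_X, Pool.Agent.H53.CL.pt_succ]
      change c * _ = 0
      rw [hc0, zero_mul]
    have h2 := Pool.Agent.TH314.PD.eq_zero_of_dvd hF3 hF0
      (isHomogeneous_X ℂ ((⟨0, hn⟩ : Fin n).succ.succ : Fin (n + 2))) (by norm_num)
      (hforms 1 _ (isHomogeneous_X _ _) h1)
    exact X_ne_zero _ h2
  · set V := A₁ * B' * C' with hV
    set W := B * A' * C' with hW
    set g := C * A' * B' with hg
    set d := Polynomial.aeval t A' * Polynomial.aeval t B' * Polynomial.aeval t C' with hd
    have hd0 : d ≠ 0 := mul_ne_zero (mul_ne_zero hAt hBt) hCt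
    have hvec : Pool.Agent.H53.CL.pt ![Polynomial.aeval t V, Polynomial.aeval t W,
        Polynomial.aeval t g] (fun l => t * (y l : M) + (z l : M)) =
        fun i => d * Pool.Agent.H53.CL.pt ![a, b, c] (fun l => t * (y l : M) + (z l : M)) i := by
      funext i
      refine Fin.cases ?_ (fun i => Fin.cases ?_ (fun l => ?_) i) i
      · change Polynomial.aeval t V = d * a
        rw [hV, hd, haA]
        simp only [map_mul]
        field_simp
      · change Polynomial.aeval t W = d * b
        rw [hW, hd, hbB]
        simp only [map_mul]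
        field_simp
      · change Polynomial.aeval t g * _ = d * (c * _)
        rw [hg, hd, hcC]
        simp only [map_mul]
        field_simp
    have hg0 : g ≠ 0 := mul_ne_zero (mul_ne_zero hC hA') hB'
    refine Pool.Agent.H53.CL.descent hs hom' hAn hn hsm htr L
      (V.natDegree + W.natDegree + g.natDegree) t ht V W g y z (by omega) (by omega) (by omega)
      hg0 ?_ ?_
    · rw [hvec, Pool.Agent.TH314.PD.aeval_smul_form hF3, hx, mul_zero]
    · rw [hvec, Pool.Agent.Y201.C3.ratio_smul d hd0]
      exact hodd

end Pool.Agent.Results.MP_2619d0_ag.CurvesOverLinesAnyDimension
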